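import Pool.Agent.Helper66.LG.Final
import Pool.Agent.Helper55.FQ.Top

/-!
# The group von Neumann algebra of a higher rank lattice determines the Lie group

`LH Γ` is the group von Neumann algebra `L(Γ)` of a discrete group `Γ` (the double commutant of the left translations of `ℓ²(Γ)`).

`G₁`, `G₂` are connected real Lie groups (in the sense of Mathlib: Hausdorff, smooth, modelled on a finite dimensional real space) with trivial centre, whose
Lie algebras `GroupLieAlgebra 𝓘(ℝ, E) G` are simple and of real rank at least two, and `Γ₁`, `Γ₂` are lattices of `G₁`, `G₂`.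

If `L(Γ₁)`, `L(Γ₂)` are `*`-isomorphic, then `G₁` and `G₂` are isomorphic as Lie groups: there is an isomorphism of groups from `G₁` to `G₂` which is smooth
and whose inverse is smooth.
-/

set_option autoImplicit false

open scoped Manifold ContDiff
open MeasureTheory
open Pool.Agent.Helper84.GVN (LH)

-- (the same instances as here, under other names)
attribute [-instance] Pool.Agent.Helper66.LG.instLG3 Pool.Agent.Helper66.LG.instLE

namespace Pool.Agent.Results.MP_0f6f3f_an.FullQ1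

/-- `minSmoothness ℝ 3 = 3 ≤ ∞`: used by Mathlib to see that a smooth Lie group has a Lie algebra. -/
instance leInfty : ENat.LEInfty (minSmoothness ℝ 3) :=
  ⟨by rw [minSmoothness_of_isRCLikeNormedField]; exact ENat.LEInfty.out⟩

/-- `Γ` is a lattice of `G`: it is discrete, and `G ⧸ Γ` carries a nonzero finite `G`-invariant Borel measure. -/
def IsLattice {G : Type} [Group G] [TopologicalSpace G] (Γ : Subgroup G) : Prop :=
  DiscreteTopology Γ ∧ ∃ ν : @Measure (G ⧸ Γ) (borel (G ⧸ Γ)), ν Set.univ ≠ 0 ∧ ν Set.univ ≠ ⊤ ∧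
    ∀ (g : G) (s : Set (G ⧸ Γ)), MeasurableSet[borel (G ⧸ Γ)] s → ν ((fun x => g • x) ⁻¹' s) = ν s

/-- The real rank of the real semisimple Lie algebra `L` is at least `r`: there are a Cartan involution `θ` of `L` (an involutive automorphism such
that `-κ(x, θ x) > 0` for all `x ≠ 0`, where `κ` is the Killing form) and a commutative subspace of dimension at least `r` on which `θ = -1`. -/
def RealRankGE (L : Type) [LieRing L] [LieAlgebra ℝ L] (r : ℕ) : Prop :=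
  ∃ θ : L ≃ₗ⁅ℝ⁆ L, (∀ x, θ (θ x) = x) ∧ (∀ x, x ≠ 0 → 0 < -killingForm ℝ L x (θ x)) ∧
    ∃ a : Submodule ℝ L, (∀ x ∈ a, θ x = -x) ∧ (∀ x ∈ a, ∀ y ∈ a, ⁅x, y⁆ = 0) ∧ r ≤ Module.finrank ℝ a

theorem result (E₁ E₂ : Type) [NormedAddCommGroup E₁] [NormedSpace ℝ E₁] [FiniteDimensional ℝ E₁]
    [NormedAddCommGroup E₂] [NormedSpace ℝ E₂] [FiniteDimensional ℝ E₂]
    -- two connected real Lie groups
    (G₁ G₂ : Type)
    [TopologicalSpace G₁] [ChartedSpace E₁ G₁] [Group G₁] [LieGroup 𝓘(ℝ, E₁) ∞ G₁] [T2Space G₁] [ConnectedSpace G₁]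
    [TopologicalSpace G₂] [ChartedSpace E₂ G₂] [Group G₂] [LieGroup 𝓘(ℝ, E₂) ∞ G₂] [T2Space G₂] [ConnectedSpace G₂]
    -- the Lie algebras are simple
    (s₁ : LieAlgebra.IsSimple ℝ (GroupLieAlgebra 𝓘(ℝ, E₁) G₁)) (s₂ : LieAlgebra.IsSimple ℝ (GroupLieAlgebra 𝓘(ℝ, E₂) G₂))
    -- the centres are trivial
    (c₁ : Subgroup.center G₁ = ⊥) (c₂ : Subgroup.center G₂ = ⊥)
    -- the real ranks are at least two
    (r₁ : RealRankGE (GroupLieAlgebra 𝓘(ℝ, E₁) G₁) 2) (r₂ : RealRankGE (GroupLieAlgebra 𝓘(ℝ, E₂) G₂) 2)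
    -- lattices
    (Γ₁ : Subgroup G₁) (Γ₂ : Subgroup G₂) (h₁ : IsLattice Γ₁) (h₂ : IsLattice Γ₂)
    -- the group von Neumann algebras are isomorphic
    (h : Nonempty (LH Γ₁ ≃⋆ₐ[ℂ] LH Γ₂)) :
    -- the Lie groups are isomorphic
    ∃ e : G₁ ≃* G₂, ContMDiff 𝓘(ℝ, E₁) 𝓘(ℝ, E₂) ∞ e ∧ ContMDiff 𝓘(ℝ, E₂) 𝓘(ℝ, E₁) ∞ e.symm :=
  Pool.Agent.Helper66.LG.full_of_core
    (fun _ _ _ _ _ _ _ _ _ _ _ _ _ _ h₁ h₂ r₁ r₂ _ _ k₁ k₂ h => Pool.Agent.Helper55.FQ.final h₁ h₂ r₁ r₂ k₁ k₂ h)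
    E₁ E₂ G₁ G₂ s₁ s₂ c₁ c₂ r₁ r₂ Γ₁ Γ₂ h₁ h₂ h

end Pool.Agent.Results.MP_0f6f3f_an.FullQ1
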