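import Pool.Agent.Helper66.BD.Conn
import Pool.Agent.Helper66.CI.Fin

/-!
# The group von Neumann algebra of a higher rank lattice determines the real rank

`LH Γ` is the group von Neumann algebra `L(Γ)` of a discrete group `Γ`, `IsoL Γ₁ Γ₂` says that `L(Γ₁)` and `L(Γ₂)` are `*`-isomorphic, and `EmbL Γ₁ Γ₂` that
there is a trace preserving `*`-homomorphism from `L(Γ₁)` to `L(Γ₂)`.

Let `L` be a real Lie algebra with a Cartan involution `θ`, and `b` a basis of `L` which is orthonormal for the inner product `-κ(x, θ y)`, where `κ` is the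
Killing form (`CartanBasis θ b`). `rankL θ` is the real rank of `L`: the largest dimension of a commutative subspace of `{x | θ x = - x}`. `autG b` is the group
of automorphisms of `L` (as matrices), and `IsAdj b G` says that `G` is a closed subgroup of it which contains all `exp(ad x)`, `x ∈ L`; for example the identity
component of `autG b`, that is, the adjoint group of `L` (`isAdj_component`). The connected simple real Lie groups with trivial centre are, up to
isomorphism, the identity components of the automorphism groups of the simple real Lie algebras; and every simple real Lie algebra of finite dimension has a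
Cartan involution `θ` and a basis `b` as above (`exists_cartan`).

The rank theorem (`result`): if `Γ₁` is a lattice of `G₁`, `Γ₂` a discrete subgroup of `G₂`, and there is a trace preserving `*`-homomorphism from `L(Γ₁)` to
`L(Γ₂)`, then the real rank of `L₁` is at most the real rank of `L₂`; for lattices of simple groups of real rank at least one, `L(Γ₁) ≅ L(Γ₂)` implies that the
real ranks are equal. A corollary (`psl_pairwise`): the algebras `L(PSL(n, ℤ))` are pairwise not isomorphic.
-/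

set_option autoImplicit false

open Matrix
open Pool.Agent.Helper66.RKS Pool.Agent.Helper96.SA Pool.Agent.Helper66.BD

namespace Pool.Agent.Results.MP_0f6f3f_an.RealRank

/-- every simple real Lie algebra of finite dimension has a Cartan involution -/
theorem exists_cartan (L : Type) [LieRing L] [LieAlgebra ℝ L] [FiniteDimensional ℝ L] [LieAlgebra.IsSimple ℝ L] :
    ∃ (N : ℕ) (b : Module.Basis (Fin N) ℝ L) (θ : L ≃ₗ⁅ℝ⁆ L), CartanBasis θ b := by
  obtain ⟨θ, b, h⟩ := Pool.Agent.Helper66.CI.exists_cartan_simple L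
  exact ⟨_, b, θ, h⟩

/-- the adjoint group satisfies the condition -/
theorem isAdj_component (L : Type) [LieRing L] [LieAlgebra ℝ L] (N : ℕ) (b : Module.Basis (Fin N) ℝ L) :
    IsAdj b ((Subgroup.connectedComponentOfOne (autG b)).map (autG b).subtype) :=
  Pool.Agent.Helper66.BD.isAdj_component b

/-- the algebras of `PSL(n, ℤ)` are pairwise not isomorphic -/
theorem psl_pairwise (n m : ℕ) (hn : 0 < n) (hm : 0 < m)
    (h : IsoL (ProjectiveSpecialLinearGroup (Fin n) ℤ) (ProjectiveSpecialLinearGroup (Fin m) ℤ)) : n = m :=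
  psl_iso hn hm h

/-- The rank theorem, for lattices in groups between the adjoint group and the automorphism group of real Lie algebras with a Cartan involution:
embeddings, and isomorphisms. -/
theorem result (L₁ L₂ : Type) [LieRing L₁] [LieAlgebra ℝ L₁] [LieRing L₂] [LieAlgebra ℝ L₂] (N₁ N₂ : ℕ)
    (b₁ : Module.Basis (Fin N₁) ℝ L₁) (b₂ : Module.Basis (Fin N₂) ℝ L₂) (θ₁ : L₁ ≃ₗ⁅ℝ⁆ L₁) (θ₂ : L₂ ≃ₗ⁅ℝ⁆ L₂)
    (G₁ : Subgroup (GL (Fin N₁) ℝ)) (G₂ : Subgroup (GL (Fin N₂) ℝ)) (Γ₁ : Subgroup G₁) (Γ₂ : Subgroup G₂)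
    (h₁ : CartanBasis θ₁ b₁) (h₂ : CartanBasis θ₂ b₂) (g₁ : IsAdj b₁ G₁) (g₂ : IsAdj b₂ G₂) (hΓ₁ : Pool.Agent.Helper96.FR.Lattice Γ₁) :
    -- embeddings
    (DiscreteTopology Γ₂ → EmbL Γ₁ Γ₂ → rankL θ₁ ≤ rankL θ₂) ∧
    -- isomorphisms
    (LieAlgebra.IsSimple ℝ L₁ → LieAlgebra.IsSimple ℝ L₂ → 1 ≤ rankL θ₁ → 1 ≤ rankL θ₂ →
      Pool.Agent.Helper96.FR.Lattice Γ₂ → IsoL Γ₁ Γ₂ → rankL θ₁ = rankL θ₂) :=
  ⟨fun hΓ₂ h => Pool.Agent.Helper66.BD.aut_hom h₁ h₂ g₁ g₂ hΓ₁ hΓ₂ h,
    fun _ _ r₁ r₂ hΓ₂ h => Pool.Agent.Helper66.BD.aut_iso h₁ h₂ g₁ g₂ r₁ r₂ hΓ₁ hΓ₂ h⟩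

end Pool.Agent.Results.MP_0f6f3f_an.RealRank
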