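import Pool.Agent.Helper84.CH.M3

/-!
# Lattices of the groups `Sp(p, q)`, `2 ≤ p ≤ q`

`LH Γ` is the group von Neumann algebra `L(Γ)` of a discrete group `Γ`; `IsoL Γ₁ Γ₂`: the algebras `L(Γ₁)` and `L(Γ₂)` are `*`-isomorphic; `EmbL Γ₁ Γ₂`:
there is a trace preserving `*`-homomorphism from `L(Γ₁)` to `L(Γ₂)`.

`SpQ p q` is the group `Sp(p, q)` of the quaternionic matrices which preserve the Hermitian form of signature `(p, q)`, and `PSp p q` its quotient by the centre. `HasSpN G k m`: there is a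
proper continuous homomorphism from `SL(2, ℝ)^k × Sp(m + 1, 1)` to `G`.
`NotSp ρ r` says that the matrices of the proper projective representation `ρ` of `Γ₂` lie in a classical group of real rank `r` which is not of the form
`Sp(p', q')` with `p' ≠ q'`: `SL(r + 1, ℝ)`, `SL(r + 1, ℂ)`, `SL(r + 1, ℍ)`, `SO(p', q')` and `SU(p', q')` with `min(p', q') = r`, `Sp(2r, ℝ)`, `Sp(2r, ℂ)`, `SO(2r, ℂ)`, `SO(2r + 1, ℂ)`,
`Sp(r, r)`, `SO*(4r)`, `SO*(4r + 2)`. `QHerm ρ p' q'`: they lie in `Sp(p', q')`. `Below ρ p q`: `NotSp ρ r` for some `r ≤ p`, or `QHerm ρ p' q'` for some `p' ≤ q'` with `p' < p` or `p' = p`, `q' < q`.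

First part: the algebra `L(Γ)` of a lattice `Γ` of `PSp(p, q)`, `2 ≤ p ≤ q`, determines `p` and `q`. Second part: if `Γ₁` is a lattice of `PSp(p, q)`, `2 ≤ p < q`, and `Γ₂` is a discrete
subgroup of a classical group (modulo its centre) of real rank at most `p` other than the groups `Sp(p, q')`, `q' ≥ q`, then there is no trace preserving `*`-homomorphism from `L(Γ₁)` to `L(Γ₂)`,
and `L(Γ₁)` and `L(Γ₂)` are not isomorphic. Third part: the second part for every locally compact second countable group `G₁` which admits a proper continuous homomorphism from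
`SL(2, ℝ)^(p - 1) × Sp(m + 1, 1)`, `q = p + m`.
-/

set_option autoImplicit false

open Filter Topology Matrix
open Pool.Agent.Helper66.RKS Pool.Agent.Helper66.BD Pool.Agent.Helper84.SPQ Pool.Agent.Helper84.CH

namespace Pool.Agent.Results.MP_0f6f3f_an.SpLattices

theorem result :
    -- the algebra of a lattice of `PSp(p, q)` determines `p` and `q`
    (∀ p q p' q' : ℕ, 2 ≤ p → p ≤ q → 1 ≤ p' → p' ≤ q' → ∀ (Γ₁ : Subgroup (PSp p q)) (Γ₂ : Subgroup (PSp p' q')),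
      Pool.Agent.Helper96.FR.Lattice Γ₁ → Pool.Agent.Helper96.FR.Lattice Γ₂ → IsoL Γ₁ Γ₂ → p = p' ∧ q = q') ∧
    -- discrete subgroups of the other classical groups
    (∀ p q : ℕ, 2 ≤ p → p < q → ∀ Γ₁ : Subgroup (PSp p q), Pool.Agent.Helper96.FR.Lattice Γ₁ →
      ∀ (Γ₂ : Type) [Group Γ₂] (N : ℕ) (ρ : PRep Γ₂ N), Below ρ p q → ¬ EmbL Γ₁ Γ₂ ∧ ¬ IsoL Γ₁ Γ₂) ∧
    -- groups which contain `SL(2, ℝ)^(p - 1) × Sp(m + 1, 1)`
    (∀ (G₁ : Type) [Group G₁] [TopologicalSpace G₁] [IsTopologicalGroup G₁] [LocallyCompactSpace G₁]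
      [SecondCountableTopology G₁] [T2Space G₁] (p m : ℕ), 2 ≤ p → 1 ≤ m → HasSpN G₁ (p - 1) m →
      ∀ Γ₁ : Subgroup G₁, Pool.Agent.Helper96.FR.Lattice Γ₁ →
      ∀ (Γ₂ : Type) [Group Γ₂] (N : ℕ) (ρ : PRep Γ₂ N), Below ρ p (p + m) →
        ¬ EmbL Γ₁ Γ₂ ∧ (IsICC Γ₁ → ¬ IsoL Γ₁ Γ₂)) := by
  refine ⟨?_, ?_, ?_⟩
  · intro p q p' q' hp hpq hp' hpq' Γ₁ Γ₂ h₁ h₂ h
    exact sp_determined hp hpq hp' hpq' Γ₁ h₁ Γ₂ h₂ h
  · intro p q hp hpq Γ₁ hL Γ₂ _ N ρ hρ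
    exact main_PSpQ2 hp hpq Γ₁ hL Γ₂ N ρ hρ
  · rintro G₁ _ _ _ _ _ _ p m hp hm ⟨f, hf⟩ Γ₁ hL Γ₂ _ N ρ hρ
    have hG : RankN G₁ m p := rankN_of_hom hm hp f hf
    refine ⟨?_, fun hicc => below_iso hL hp hG hicc ρ hρ⟩
    rintro ⟨θ, hτ⟩
    exact below_hom hL hp hG ρ hρ θ hτ

end Pool.Agent.Results.MP_0f6f3f_an.SpLattices
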